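import Mathlib
import Pool.Agent.H24.Rw4

set_option autoImplicit false

namespace Pool.Agent.Results.MP_342291_lc.PositiveUndecidable

open Pool.Agent.H24 Pool.Agent.H24.Rw

theorem pdCr {ι : Type} [DecidableEq ι] [Fintype ι] (D : Data ι) (k : Fin 7) (i j : ℕ) :
    PD (St D) fun σ => Cr D k (σ i) (σ j) := (PD.rel i j).and (PD.walk _ j j)

theorem undec {ι : Type} [DecidableEq ι] [Fintype ι] (D : Data ι) {P : ℕ → Prop}
    (hP : ¬ ComputablePred P) (h : ∀ n, P n ↔ ¬ Phi D n) :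
    ¬ ComputablePred fun n : ℕ => ∃ φ : PF, φ.code = n ∧ ∀ σ, φ.Sat (St D) σ := by
  obtain ⟨B, hB⟩ : PD (St D) fun σ => St D (σ 0) (σ 1) ∨ (Has D 0 (σ 0) ∨ Has D 1 (σ 0) ∨
      Has D 2 (σ 0) ∨ Has D 3 (σ 0) ∨ Has D 4 (σ 0) ∨ Has D 5 (σ 0) ∨ Has D 6 (σ 0)) ∨
      Mis D (σ 0) := by
    unfold Mis
    repeat' first
      | exact pdCr D _ _ _ | exact PD.rel _ _ | exact PD.walk _ _ _ | apply PD.or | apply PD.and
      | apply PD.ex
  obtain ⟨A, hA⟩ := pdCr D 5 1 0
  obtain ⟨N0, h0⟩ : PD (St D) fun σ => ∃ y, Cr D 1 (σ 0) y := PD.ex (pdCr D 1 1 0)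
  obtain ⟨Z, hZ⟩ : PD (St D) fun σ => ∃ y, Cr D 4 (σ 0) y := PD.ex (pdCr D 4 1 0)
  obtain ⟨S, hS⟩ := (pdCr D 1 2 1).and (pdCr D 5 1 0)
  let N : ℕ → PF := fun n => Nat.rec N0 (fun _ φ => .or Z (.ex (.ex (.and S φ)))) n
  have hN : ∀ n σ, (N n).Sat (St D) σ ↔ Neq D n (σ 0) := fun n => by
    induction n with
    | zero => exact h0
    | succ n ih =>
      exact fun σ => or_congr (hZ σ) (exists_congr fun _ => exists_congr fun _ =>
        and_congr (hS _) (ih _))
  have hF : ∀ n σ, (PF.ex (.all (.or B (.ex (.and A (N n)))))).Sat (St D) σ ↔ Phi D n :=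
    fun n σ => exists_congr fun _ => forall_congr' fun _ => or_congr (hB _)
      (exists_congr fun _ => and_congr (hA _) (hN _ _))
  intro hc
  refine H10.not_comp_of_red hP (fun n => (PF.ex (.all (.or B (.ex (.and A (N n)))))).code) ?_
    (fun n => ?_) hc.not
  · have p : ∀ (k : ℕ) {F : ℕ × ℕ → ℕ}, Primrec F → Primrec fun x => Nat.pair k (F x) :=
      fun k _ h => Primrec₂.natPair.comp (Primrec.const k) h
    have : Primrec fun n : ℕ => (Nat.rec N0.code (fun _ a => Nat.pair 3 (Nat.pair Z.code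
        (Nat.pair 4 (Nat.pair 4 (Nat.pair 2 (Nat.pair S.code a)))))) n : ℕ) :=
      Primrec.nat_rec₁ _ (p _ (p _ (p _ (p _ (p _ (p _ Primrec.snd)))))).to₂
    have e : Primrec fun n => (N n).code := this.of_eq fun n => by
      induction n with
      | zero => rfl
      | succ n ih => dsimp only; rw [ih]; rfl
    exact ((p 4 (p 5 (p 3 (p B.code (p 4 (p 2 (p A.code Primrec.snd))))))).comp
      (Primrec.id.pair e)).to_comp
  · rw [h]
    refine not_congr ⟨fun h => ⟨_, rfl, fun σ => (hF n σ).2 h⟩, ?_⟩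
    rintro ⟨φ, e, h⟩
    rw [PF.code_inj _ _ e] at h
    exact (hF n fun _ => z0).1 (h _)

/-- There are a finite signature (constants `K`, one unary symbol, one binary symbol, symbols `G`
of arity `A`) and a finite rewrite system over it whose positive theory of one-step rewriting is
undecidable. -/
theorem result : ∃ (K G V : Type) (A : ℕ) (R : Set (Tm K G (Fin A) V × Tm K G (Fin A) V)),
    Finite K ∧ Nonempty K ∧ Finite G ∧ R.Finite ∧
    (∀ ρ ∈ R, (∀ v, ρ.1 ≠ Tm.var v) ∧ ∀ v, ρ.2.Occ v → ρ.1.Occ v) ∧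
    ¬ ComputablePred fun n : ℕ => ∃ φ : PF, φ.code = n ∧
      ∀ σ : ℕ → Tm K G (Fin A) Empty, φ.Sat (Step R) σ := by
  obtain ⟨L, p, o, hK⟩ := H10.h10sys
  obtain ⟨N, hp, ho, hL⟩ : ∃ N, p < N ∧ o < N ∧ ∀ c ∈ L, Encodable.encode c < N ∧ c.2.1 < N ∧
      c.2.2.1 < N ∧ c.2.2.2 < N := by
    refine ⟨p + o + (L.map fun c => Encodable.encode c + c.2.1 + c.2.2.1 + c.2.2.2).sum + 1,
      by omega, by omega, fun c hc => ?_⟩
    have := List.single_le_sum (l := L.map fun c => Encodable.encode c + c.2.1 + c.2.2.1 + c.2.2.2)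
      (by simp) _ (List.mem_map_of_mem hc)
    omega
  let D : Data (Fin (2 * N + 5)) := ⟨Fin.castLE (by omega), fun i => Fin.ofNat _ (2 * i),
    fun c => Fin.ofNat _ (2 * Encodable.encode c + 1), L, p, o⟩
  have hs : Function.Injective D.sl := Fin.castLE_injective (by omega)
  have e : Step (RS D) = St D := funext₂ fun a b =>
    propext (step_iff D (hs.ne (by decide)) a b)
  refine ⟨K, Fin 4, _, _, RS D, inferInstance, inferInstance, inferInstance, RS_fin D, RS_wf D, ?_⟩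
  rw [e]
  refine undec D hK fun n => ⟨?_, fun h => by_contra fun h' => h (complete D h')⟩
  rintro ⟨v, h1, h2, h3⟩
  choose g τ a0 a1 a2 a3 a4 a5 a6 using prf D hs
  let B : Cn → ℕ × ℕ × ℕ := fun c =>
    if c.1 then (v c.2.1, 1, v c.2.2.1) else (v c.2.1, v c.2.2.1, 0)
  let Q : ℕ × ℕ × ℕ → G (Fin (2 * N + 5)) := fun x => .big (g x.1 x.2.1 x.2.2) (τ x.1 x.2.1 x.2.2)
  let ts : Fin (2 * N + 5) → G (Fin (2 * N + 5)) := fun j => if j.1 % 2 = 0 then num (v (j.1 / 2))
    else Q (B ((Encodable.decode (j.1 / 2)).getD default))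
  have e1 : ∀ i < N, ts (D.vr i) = num (v i) := fun i hi => by
    simp [ts, D, Fin.ofNat, Nat.mod_eq_of_lt (show 2 * i < 2 * N + 5 by omega)]
  have e2 : ∀ c ∈ L, ts (D.pf c) = Q (B c) := fun c hc => by
    have := (hL c hc).1
    have b1 : (2 * Encodable.encode c + 1) / 2 = Encodable.encode c := by omega
    simp only [ts, D, Fin.ofNat,
      Nat.mod_eq_of_lt (show 2 * Encodable.encode c + 1 < 2 * N + 5 by omega), b1,
      Encodable.encodek, Option.getD_some]
    rw [if_neg (by omega)]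
  have e3 : ∀ j, Gd D (ts j) ∧ NR (ts j) := fun j => by
    dsimp only [ts]
    split_ifs
    exacts [num_gd D _, ⟨a5 _ _ _, a6 _ _ _⟩]
  refine sound D (ts := ts) ⟨?_, fun j => (e3 j).1⟩ (fun j => (e3 j).2) (h1 ▸ e1 p hp)
  rintro e (h | ⟨q, hq, h4, h⟩)
  · obtain rfl : e = (ts (D.vr o), .s z0) := by simpa [prs0] using h
    simp [e1 o ho, h2, num]
  · obtain ⟨c, rfl⟩ : ∃ c, q = .inr c := by rcases q with (_ | _) | c <;> simp [gq] at h4 ⊢
    obtain ⟨-, b1, b2, b3⟩ := hL c hq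
    have hc := h3 c hq
    rw [show ts (iq D (.inr c)) = Q (B c) from e2 c hq] at h
    rcases h with ⟨g', τ', -, h5, h⟩ | ⟨h, h5, h6, -⟩
    · obtain ⟨-, rfl⟩ := Tm.big.inj h5
      rcases c with ⟨_ | _, a, b, c⟩ <;>
        simp only [prs, List.mem_cons, List.not_mem_nil, or_false] at h <;>
        rcases h with rfl | rfl | rfl | rfl <;> simp_all [H10.Con, B, num, mul_comm]
    · exact absurd (h6 _ (Option.some.inj h5).symm) (a0 _ _ _)

end Pool.Agent.Results.MP_342291_lc.PositiveUndecidable
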